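import Mathlib
import Pool.Agent.H934R3.NP.Stmts

set_option autoImplicit false

open MeasureTheory Set Filter Topology
open scoped ENNReal NNReal

namespace Pool.Agent.H242R3.NP.B3

open Pool.Agent.H934R3.NP

theorem isCompact_Sg {g : E → ℝ} (hg : Surf g) : IsCompact (Sg g) := by
  obtain ⟨R, hR⟩ := hg.pos
  apply (isCompact_closedBall (0 : E) R).of_isClosed_subset
  · exact isClosed_eq hg.smooth.continuous continuous_const
  · intro x hx
    have hx0 : g x = 0 := hx
    rw [mem_closedBall_zero_iff]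
    by_contra hcon
    push Not at hcon
    have := hR x hcon.le
    rw [hx0] at this
    exact lt_irrefl _ this

theorem norm_gradient {g : E → ℝ} (x : E) : ‖gradient g x‖ = ‖fderiv ℝ g x‖ := by
  unfold gradient
  exact LinearIsometryEquiv.norm_map _ _

theorem inner_gradient {g : E → ℝ} (x v : E) : inner ℝ v (gradient g x) = fderiv ℝ g x v := by
  rw [real_inner_comm]
  unfold gradient
  exact InnerProductSpace.toDual_symm_apply

theorem exists_lip {V : Type*} [NormedAddCommGroup V] [NormedSpace ℝ V] {F : E → V}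
    (hF : ContDiff ℝ 1 F) (R : ℝ) : ∃ L : ℝ, ∀ x ∈ Metric.closedBall (0 : E) R,
      ∀ y ∈ Metric.closedBall (0 : E) R, ‖F y - F x‖ ≤ L * ‖y - x‖ := by
  have hd2 : Continuous (fun x => fderiv ℝ F x) := hF.continuous_fderiv (by norm_num)
  obtain ⟨L, hL⟩ := (isCompact_closedBall (0 : E) R).exists_bound_of_continuousOn
    hd2.continuousOn
  refine ⟨L, ?_⟩
  intro x hx y hy
  apply Convex.norm_image_sub_le_of_norm_fderiv_le (s := Metric.closedBall (0 : E) R) (𝕜 := ℝ)
  · intro z _
    exact (hF.differentiable (by norm_num)).differentiableAt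
  · intro z hz
    exact hL z hz
  · exact convex_closedBall _ _
  · exact hx
  · exact hy

theorem t : TaskB3 := by
  intro g hg
  obtain ⟨R, hR⟩ := hg.pos
  have hK : IsCompact (Sg g) := isCompact_Sg hg
  have hKR : ∀ x ∈ Sg g, x ∈ Metric.closedBall (0 : E) R := by
    intro x hx
    have hx0 : g x = 0 := hx
    rw [mem_closedBall_zero_iff]
    by_contra hcon
    push Not at hcon
    have := hR x hcon.le
    rw [hx0] at this
    exact lt_irrefl _ this
  have hne : (Sg g).Nonempty := hg.ne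
  have hdiff : Differentiable ℝ g := hg.smooth.differentiable (by simp)
  have hd1 : ContDiff ℝ 1 (fderiv ℝ g) := hg.smooth.fderiv_right (m := 1)
    (by rw [show (1 : WithTop ℕ∞) + 1 = ((2 : ℕ∞) : WithTop ℕ∞) from rfl]; exact_mod_cast le_top)
  have hcf : Continuous (fderiv ℝ g) := hd1.continuous
  -- lower bound of the gradient
  obtain ⟨x0, hx0, hmin⟩ := hK.exists_isMinOn hne hcf.norm.continuousOn
  have hm : 0 < ‖fderiv ℝ g x0‖ := by
    rw [← norm_gradient, norm_pos_iff]
    exact hg.reg x0 hx0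
  set m := ‖fderiv ℝ g x0‖ with hmdef
  have hml : ∀ x ∈ Sg g, m ≤ ‖fderiv ℝ g x‖ := fun x hx => hmin hx
  -- Lipschitz bound of the derivative on the ball
  obtain ⟨L, hL⟩ := exists_lip hd1 R
  have hLip : ∀ x ∈ Metric.closedBall (0 : E) R, ∀ y ∈ Metric.closedBall (0 : E) R,
      ‖fderiv ℝ g y - fderiv ℝ g x‖ ≤ (max L 1) * ‖y - x‖ := by
    intro x hx y hy
    exact (hL x hx y hy).trans (mul_le_mul_of_nonneg_right (le_max_left _ _) (norm_nonneg _))
  have hL1 : 0 < max L 1 := lt_of_lt_of_le one_pos (le_max_right _ _)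
  have hTay : ∀ x ∈ Sg g, ∀ y ∈ Sg g, |fderiv ℝ g x (x - y)| ≤ (max L 1) * ‖x - y‖ ^ 2 := by
    intro x hx y hy
    have h1 : ‖g y - g x - fderiv ℝ g x (y - x)‖ ≤ ((max L 1) * ‖y - x‖) * ‖y - x‖ := by
      apply Convex.norm_image_sub_le_of_norm_fderiv_le' (s := segment ℝ x y) (𝕜 := ℝ)
      · intro z _
        exact hdiff.differentiableAt
      · intro z hz
        have hzB : z ∈ Metric.closedBall (0 : E) R :=
          (convex_closedBall (0 : E) R).segment_subset (hKR x hx) (hKR y hy) hz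
        refine (hLip x (hKR x hx) z hzB).trans ?_
        apply mul_le_mul_of_nonneg_left _ hL1.le
        exact norm_sub_le_of_mem_segment hz
      · exact convex_segment _ _
      · exact left_mem_segment _ _ _
      · exact right_mem_segment _ _ _
    have hgx : g x = 0 := hx
    have hgy : g y = 0 := hy
    rw [hgx, hgy] at h1
    have h2 : (0 : ℝ) - 0 - fderiv ℝ g x (y - x) = fderiv ℝ g x (x - y) := by
      rw [← neg_sub x y, map_neg]; ring
    rw [h2, Real.norm_eq_abs, norm_sub_rev] at h1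
    calc |fderiv ℝ g x (x - y)| ≤ _ := h1
      _ = (max L 1) * ‖x - y‖ ^ 2 := by ring
  refine ⟨(max L 1) / (4 * Real.pi * m), by positivity, ?_⟩
  intro x hx y hy
  unfold ks
  rw [inner_gradient, norm_gradient]
  by_cases hxy : x = y
  · subst hxy
    simp
  have hn : 0 < ‖x - y‖ := norm_pos_iff.mpr (sub_ne_zero.mpr hxy)
  have hfx : 0 < ‖fderiv ℝ g x‖ := lt_of_lt_of_le hm (hml x hx)
  rw [abs_mul, abs_of_pos (show (0 : ℝ) < 1 / (4 * Real.pi) by positivity), abs_div,
    abs_of_pos (show (0 : ℝ) < ‖fderiv ℝ g x‖ * ‖x - y‖ ^ 3 by positivity)]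
  calc 1 / (4 * Real.pi) * (|fderiv ℝ g x (x - y)| / (‖fderiv ℝ g x‖ * ‖x - y‖ ^ 3))
      ≤ 1 / (4 * Real.pi) * ((max L 1 * ‖x - y‖ ^ 2) / (m * ‖x - y‖ ^ 3)) := by
        apply mul_le_mul_of_nonneg_left _ (by positivity)
        apply div_le_div₀ (by positivity) (hTay x hx y hy) (by positivity)
        apply mul_le_mul_of_nonneg_right (hml x hx) (by positivity)
    _ = (max L 1) / (4 * Real.pi * m) / ‖x - y‖ := by
        field_simp

end Pool.Agent.H242R3.NP.B3
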